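import Pool.Agent.helper12.TY.Spec

set_option autoImplicit false

namespace Pool.Agent.TY

theorem YJD : YJD_stmt := by
  intro a b hb hab
  unfold J2
  have hsub : a.primeFactors ⊆ b.primeFactors := Nat.primeFactors_mono hab hb
  have ha : a ≠ 0 := fun h => hb (by rw [h] at hab; exact Nat.eq_zero_of_zero_dvd hab)
  refine (Finset.prod_dvd_prod_of_dvd _ (fun l => l ^ (2 * (b.factorization l - 1)) * (l ^ 2 - 1)) ?_).trans
    (Finset.prod_dvd_prod_of_subset _ _ _ hsub)
  intro l _
  have h1 : a.factorization l ≤ b.factorization l := (Nat.factorization_le_iff_dvd ha hb).2 hab l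
  exact Nat.mul_dvd_mul_right (pow_dvd_pow l (by omega)) _

end Pool.Agent.TY
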